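import Mathlib

/-!
Doubly-derived palintiples of shifted-symmetric palintiples: the new multiplier always equals
the lower base.
-/

namespace Pool.Agent.Results.MP_6bbb8b_nt.MultiplierEqBase

open Finset

/-- `(d k, …, d 0)_b` is an `(n, b)`-palintiple (reverse multiple) with `k + 1` digits:
`b ≥ 3`, `1 < n < b`, `k ≥ 1`, all digits lie in `[0, b)`, `d 0 ≠ 0`, and the number
`∑ d j * b ^ j` is `n` times its digit reversal `∑ d (k - j) * b ^ j`. -/
structure IsPalintiple (n b k : ℕ) (d : ℕ → ℕ) : Prop where
  three_le_base : 3 ≤ b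
  one_lt_mul : 1 < n
  mul_lt_base : n < b
  one_le_len : 1 ≤ k
  digit_lt : ∀ j, j ≤ k → d j < b
  digit_zero_ne : d 0 ≠ 0
  eq_mul_reverse :
    ∑ j ∈ range (k + 1), d j * b ^ j = n * ∑ j ∈ range (k + 1), d (k - j) * b ^ j

/-- The carries produced when the reversal `(d 0, …, d k)_b` is multiplied by `n` column by
column in base `b`: `c 0 = 0` and `c (j + 1) = ⌊(n * d (k - j) + c j) / b⌋`. -/
def carry (n b k : ℕ) (d : ℕ → ℕ) : ℕ → ℕ
  | 0 => 0
  | j + 1 => (n * d (k - j) + carry n b k d j) / b

/-- Shifted-symmetric: `c j = c (k - j + 1)` for all `0 ≤ j ≤ k`. -/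
def IsShiftedSymmetric (n b k : ℕ) (d : ℕ → ℕ) : Prop :=
  ∀ j, j ≤ k → carry n b k d j = carry n b k d (k - j + 1)

/-- The `(k + 3)`-digit string `(D (k + 2), …, D 0)_B` is an `(N, B)`-palintiple whose carries
`(C (k + 2), C (k + 1), …, C 1, C 0)` are `(0, d k, …, d 0, 0)`. -/
def IsDoublyDerived (N B : ℕ) (D : ℕ → ℕ) (k : ℕ) (d : ℕ → ℕ) : Prop :=
  IsPalintiple N B (k + 2) D ∧
    carry N B (k + 2) D 0 = 0 ∧
    (∀ j, j ≤ k → carry N B (k + 2) D (j + 1) = d j) ∧
    carry N B (k + 2) D (k + 2) = 0

/-- Uniqueness of base-`b` digits, with an overflow term. -/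
theorem digits_unique (b : ℕ) (m : ℕ) (x y : ℕ → ℕ) (s t : ℕ)
    (hx : ∀ j, j < m → x j < b) (hy : ∀ j, j < m → y j < b)
    (h : ∑ j ∈ range m, x j * b ^ j + s * b ^ m = ∑ j ∈ range m, y j * b ^ j + t * b ^ m) :
    (∀ j, j < m → x j = y j) ∧ s = t := by
  induction m generalizing s t with
  | zero => simpa using h
  | succ m ih =>
    rw [sum_range_succ, sum_range_succ] at h
    have h' : ∑ j ∈ range m, x j * b ^ j + (x m + s * b) * b ^ m
        = ∑ j ∈ range m, y j * b ^ j + (y m + t * b) * b ^ m := by
      rw [pow_succ] at h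
      linarith
    obtain ⟨h1, h2⟩ := ih (x m + s * b) (y m + t * b)
      (fun j hj => hx j (by omega)) (fun j hj => hy j (by omega)) h'
    have hxm := hx m (by omega)
    have hym := hy m (by omega)
    have hb : 0 < b := by omega
    have e1 : (x m + s * b) % b = x m := by
      rw [Nat.add_mul_mod_self_right, Nat.mod_eq_of_lt hxm]
    have e2 : (y m + t * b) % b = y m := by
      rw [Nat.add_mul_mod_self_right, Nat.mod_eq_of_lt hym]
    have e3 : x m = y m := by rw [← e1, ← e2, h2]
    have e4 : s = t := by
      have : s * b = t * b := by omega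
      exact Nat.eq_of_mul_eq_mul_right hb this
    refine ⟨fun j hj => ?_, e4⟩
    rcases Nat.lt_succ_iff_lt_or_eq.mp hj with hj | hj
    · exact h1 j hj
    · rw [hj, e3]

/-- Schoolbook multiplication. -/
theorem mul_reverse_eq (n b k : ℕ) (d : ℕ → ℕ) (m : ℕ) :
    n * ∑ j ∈ range m, d (k - j) * b ^ j
      = ∑ j ∈ range m, ((n * d (k - j) + carry n b k d j) % b) * b ^ j
        + carry n b k d m * b ^ m := by
  induction m with
  | zero => simp [carry]
  | succ m ih =>
    rw [sum_range_succ, sum_range_succ, mul_add, ih]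
    have h := Nat.mod_add_div (n * d (k - m) + carry n b k d m) b
    have hc : carry n b k d (m + 1) = (n * d (k - m) + carry n b k d m) / b := rfl
    rw [hc, pow_succ]
    have h2 : (n * d (k - m) + carry n b k d m) * b ^ m
        = ((n * d (k - m) + carry n b k d m) % b
          + b * ((n * d (k - m) + carry n b k d m) / b)) * b ^ m := by rw [h]
    nlinarith [h2]

/-- For a palintiple the carries satisfy the column equations of the problem statement. -/
theorem carry_spec {n b k : ℕ} {d : ℕ → ℕ} (h : IsPalintiple n b k d) :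
    (∀ j, j ≤ k → n * d (k - j) + carry n b k d j = d j + b * carry n b k d (j + 1)) ∧
      carry n b k d (k + 1) = 0 := by
  have hb : 0 < b := by have := h.three_le_base; omega
  have key := digits_unique b (k + 1) d
    (fun j => (n * d (k - j) + carry n b k d j) % b) 0 (carry n b k d (k + 1))
    (fun j hj => h.digit_lt j (by omega)) (fun j _ => Nat.mod_lt _ hb)
    (by rw [zero_mul, add_zero, h.eq_mul_reverse, mul_reverse_eq])
  refine ⟨fun j hj => ?_, key.2.symm⟩
  have h1 := key.1 j (by omega)
  have hc : carry n b k d (j + 1) = (n * d (k - j) + carry n b k d j) / b := rfl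
  rw [hc, h1]
  exact (Nat.mod_add_div _ _).symm

/-- Carries are smaller than the multiplier. -/
theorem carry_lt {n b k : ℕ} {d : ℕ → ℕ} (h : IsPalintiple n b k d) (j : ℕ) :
    carry n b k d j < n := by
  have hb : 0 < b := by have := h.three_le_base; omega
  have hn := h.one_lt_mul
  induction j with
  | zero => simp [carry]; omega
  | succ j ih =>
    have hc : carry n b k d (j + 1) = (n * d (k - j) + carry n b k d j) / b := rfl
    rw [hc, Nat.div_lt_iff_lt_mul hb]
    have h1 : d (k - j) + 1 ≤ b := h.digit_lt _ (Nat.sub_le _ _)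
    have h2 : n * (d (k - j) + 1) ≤ n * b := Nat.mul_le_mul_left _ h1
    nlinarith

/-- The arithmetic core. -/
theorem core (n b a c e N x : ℤ) (hn : 1 < n) (ha : 0 < a) (hc0 : 0 < c) (hcn : c < n)
    (he : e = n * a + c) (hb : n * e = a + b * c) (heN : e < N)
    (hx : a * (N * e + a) = x * (N ^ 2 - 1)) : N = b := by
  have hna : a < n * a := by nlinarith
  have hae : a < e := by linarith
  have hN : 1 < N := by linarith
  have hM : 0 < N ^ 2 - 1 := by nlinarith
  -- `z` is the quotient of `a * (N * a + e)` by `N ^ 2 - 1`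
  obtain ⟨z, hz⟩ : ∃ z, z = N * x - a * e := ⟨_, rfl⟩
  have hz' : a * (N * a + e) = z * (N ^ 2 - 1) := by
    rw [hz]; linear_combination N * hx
  have hzpos : 0 < z := by
    have h0 : 0 < N * a + e := by nlinarith
    have h1 : 0 < a * (N * a + e) := mul_pos ha h0
    rw [hz'] at h1
    exact (mul_pos_iff_of_pos_right hM).mp h1
  have hxa : x < a := by
    have h1 : N * e + a < N ^ 2 - 1 := by nlinarith
    have h2 : a * (N * e + a) < a * (N ^ 2 - 1) := by nlinarith
    rw [hx] at h2
    exact lt_of_mul_lt_mul_right h2 hM.le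
  have ha2 : a ^ 2 = N * z - x := by
    have h1 : (a ^ 2 - (N * z - x)) * (N ^ 2 - 1) = 0 := by
      linear_combination N * hz' - hx
    rcases mul_eq_zero.mp h1 with h | h
    · linarith
    · linarith
  have hkey : N * (x - n * z) = a * c + z - n * x := by
    have h1 : N * x = z + a * e := by linarith
    rw [he] at h1
    linear_combination h1 + n * ha2
  have hxz : x = n * z := by
    rcases lt_trichotomy x (n * z) with h | h | h
    · exfalso
      have h1 : N * (x - n * z) ≤ -N := by nlinarith
      have h2 : n * x < n * a := by nlinarith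
      have h3 : 0 < a * c := by positivity
      linarith
    · exact h
    · exfalso
      have h1 : N ≤ N * (x - n * z) := by nlinarith
      have h2 : N * z ≤ (a * c + z - n * x) * z := by nlinarith
      have h3 : c * z ≤ (n - 1) * z := by nlinarith
      have h4 : c * z < a := by nlinarith
      have h5 : a * (c * z) < a * a := by nlinarith
      have hxpos : 0 < x := by nlinarith
      have h6 : z ≤ n * x := by nlinarith
      have h7 : z * z ≤ n * x * z := by nlinarith
      nlinarith
  have h1 : a * c = (n ^ 2 - 1) * z := by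
    rw [hxz] at hkey
    linear_combination -hkey
  have h2 : a ^ 2 = (N - n) * z := by rw [ha2, hxz]; ring
  have h3 : (b - n) * c = (n ^ 2 - 1) * a := by
    rw [he] at hb
    linear_combination -hb
  have h4 : (N - b) * (a * c) = 0 := by
    linear_combination (N - n) * h1 - a * h3 - (n ^ 2 - 1) * h2
  rcases mul_eq_zero.mp h4 with h | h
  · linarith
  · exfalso
    have : 0 < a * c := by positivity
    linarith

/-- The hypotheses of `result` can be met: `(7, 3)_11 = 2 * (3, 7)_11` is shifted-symmetric and
`(22, 51, 4, 2)_80 = 11 * (2, 4, 51, 22)_80` has carries `(0, 7, 3, 0)`. -/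
theorem nonvacuous :
    IsPalintiple 2 11 1 (fun j => [3, 7].getD j 0) ∧
    IsShiftedSymmetric 2 11 1 (fun j => [3, 7].getD j 0) ∧
    IsDoublyDerived 11 80 (fun j => [2, 4, 51, 22].getD j 0) 1 (fun j => [3, 7].getD j 0) := by
  refine ⟨⟨by decide, by decide, by decide, by decide, by decide, by decide, by decide⟩,
    by unfold IsShiftedSymmetric; decide,
    ⟨by decide, by decide, by decide, by decide, by decide, by decide, by decide⟩,
    by decide, by decide, by decide⟩

/-- If `(d k, …, d 0)_b` is a shifted-symmetric `(n, b)`-palintiple and `(D (k+2), …, D 0)_B` is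
an `(N, B)`-palintiple with carries `(0, d k, …, d 0, 0)`, then `N = b`. -/
theorem result (n b k : ℕ) (d : ℕ → ℕ) (N B : ℕ) (D : ℕ → ℕ)
    (hp : IsPalintiple n b k d) (hs : IsShiftedSymmetric n b k d)
    (hD : IsDoublyDerived N B D k d) : N = b := by
  obtain ⟨hP, -, hC, hC2⟩ := hD
  obtain ⟨eq1, top1⟩ := carry_spec hp
  obtain ⟨eq2, top2⟩ := carry_spec hP
  have hk := hp.one_le_len
  have hn := hp.one_lt_mul
  have ha : 0 < d 0 := Nat.pos_of_ne_zero hp.digit_zero_ne
  -- the two outer columns of `p`
  have c1 : carry n b k d 1 = carry n b k d k := by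
    have := hs 1 hk
    rwa [Nat.sub_add_cancel hk] at this
  have p0 : n * d k = d 0 + b * carry n b k d k := by
    have := eq1 0 (Nat.zero_le _)
    simpa [carry, ← c1] using this
  have pk : n * d 0 + carry n b k d k = d k := by
    have := eq1 k le_rfl
    simpa [top1] using this
  have hcn : carry n b k d k < n := carry_lt hp k
  -- the four outer columns of the derived palintiple
  have q0 : N * D (k + 2) = D 0 + B * d 0 := by
    have := eq2 0 (Nat.zero_le _)
    rw [hC 0 (Nat.zero_le _)] at this
    simpa [carry] using this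
  have q1 : N * D (k + 1) + d 0 = D 1 + B * d 1 := by
    have := eq2 1 (by omega)
    rw [hC 0 (Nat.zero_le _), hC 1 hk] at this
    simpa using this
  have q2 : N * D 1 + d k = D (k + 1) := by
    have := eq2 (k + 1) (by omega)
    rw [hC k le_rfl, hC2] at this
    simpa using this
  have q3 : N * D 0 = D (k + 2) := by
    have := eq2 (k + 2) le_rfl
    rw [hC2, top2] at this
    simpa using this
  have heN : d k < N := by
    rw [← hC k le_rfl]; exact carry_lt hP _
  have hc0 : 0 < carry n b k d k := by
    rcases Nat.eq_zero_or_pos (carry n b k d k) with h | h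
    · exfalso
      rw [h] at p0 pk
      have h1 : d k = n * d 0 := by omega
      have h2 : n * (n * d 0) = d 0 := by rw [← h1]; omega
      nlinarith [Nat.mul_le_mul hn.le hn.le, Nat.mul_le_mul_right (d 0) hn]
    · exact h
  have := core (n : ℤ) b (d 0) (carry n b k d k) (d k) N
    ((D 0 : ℤ) * d 1 - (D 1 : ℤ) * d 0)
    (by exact_mod_cast hn) (by exact_mod_cast ha) (by exact_mod_cast hc0) (by exact_mod_cast hcn)
    (by exact_mod_cast pk.symm) (by exact_mod_cast p0) (by exact_mod_cast heN)
    (by
      have r0 : (N : ℤ) * D (k + 2) = D 0 + B * d 0 := by exact_mod_cast q0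
      have r1 : (N : ℤ) * D (k + 1) + d 0 = D 1 + B * d 1 := by exact_mod_cast q1
      have r2 : (N : ℤ) * D 1 + d k = D (k + 1) := by exact_mod_cast q2
      have r3 : (N : ℤ) * D 0 = D (k + 2) := by exact_mod_cast q3
      linear_combination (d 0 : ℤ) * r1 + (d 0 : ℤ) * N * r2 - (d 1 : ℤ) * r0
        - (d 1 : ℤ) * N * r3)
  exact_mod_cast this

end Pool.Agent.Results.MP_6bbb8b_nt.MultiplierEqBase
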